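import Mathlib
import Pool.Agent.Y113.MT.Stm

set_option autoImplicit false

/-! Project MT (helper113), job LIE1. -/

open Matrix

namespace Pool.Agent.Y412.MT

open Pool.Agent.Y113.MT

variable {F : Type} [Field F] {n : ℕ}

theorem SS_apply (i j : Fin n) :
    SS F n i j = if (i : ℕ) + j + 1 = n then (-1) ^ (i : ℕ) else 0 := rfl

theorem SS_rev (i : Fin n) : SS F n i (Fin.rev i) = (-1) ^ (i : ℕ) := by
  rw [SS_apply, if_pos]
  rw [Fin.val_rev]
  have := i.2
  omega

theorem SS_of_ne {i j : Fin n} (h : j ≠ Fin.rev i) : SS F n i j = 0 := by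
  rw [SS_apply, if_neg]
  intro h2
  apply h
  ext
  rw [Fin.val_rev]
  omega

theorem SS_rev_ne (i : Fin n) : SS F n i (Fin.rev i) ≠ 0 := by
  rw [SS_rev]
  exact pow_ne_zero _ (by norm_num)

/-- `T(v,w)` -/
def T (v w : Fin n → F) : Matrix (Fin n) (Fin n) F := (vecMulVec v w + vecMulVec w v) * SS F n

theorem T_comm (v w : Fin n → F) : T v w = T w v := by
  unfold T
  rw [add_comm]

theorem T_add_left (u v w : Fin n → F) : T (u + v) w = T u w + T v w := by
  unfold T
  rw [add_vecMulVec, vecMulVec_add, ← Matrix.add_mul]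
  congr 1
  abel

theorem T_smul_left (c : F) (v w : Fin n → F) : T (c • v) w = c • T v w := by
  unfold T
  rw [smul_vecMulVec, vecMulVec_smul, ← smul_add, Matrix.smul_mul]

theorem T_add_right (u v w : Fin n → F) : T u (v + w) = T u v + T u w := by
  rw [T_comm, T_add_left, T_comm v, T_comm w]

theorem T_smul_right (c : F) (v w : Fin n → F) : T v (c • w) = c • T v w := by
  rw [T_comm, T_smul_left, T_comm]

section even

variable {m : ℕ}

theorem SS_sq : SS F (2 * m) * SS F (2 * m) = -1 := by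
  ext i k
  rw [Matrix.mul_apply, Finset.sum_eq_single (Fin.rev i)]
  · rw [SS_rev, Matrix.neg_apply, Matrix.one_apply, SS_apply]
    have hi := i.2
    have h1 : ((Fin.rev i : Fin (2 * m)) : ℕ) = 2 * m - 1 - i := by
      rw [Fin.val_rev]
      omega
    by_cases h : i = k
    · subst h
      rw [if_pos (by omega), if_pos rfl, h1, ← pow_add]
      have : (i : ℕ) + (2 * m - 1 - i) = 2 * (m - 1) + 1 := by omega
      rw [this, pow_succ, pow_mul]
      norm_num
    · rw [if_neg, if_neg h]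
      · simp
      · intro h2
        apply h
        ext
        omega
  · intro j _ hj
    rw [SS_of_ne hj, zero_mul]
  · intro h
    exact absurd (Finset.mem_univ _) h

theorem SS_tr : (SS F (2 * m))ᵀ = -SS F (2 * m) := by
  ext i j
  rw [Matrix.transpose_apply, Matrix.neg_apply, SS_apply, SS_apply]
  by_cases h : (i : ℕ) + j + 1 = 2 * m
  · rw [if_pos (by omega), if_pos h]
    have : (j : ℕ) = 2 * m - 1 - i := by omega
    have hi : (i : ℕ) < 2 * m := i.2
    rcases Nat.even_or_odd (i : ℕ) with he | ho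
    · have ho : Odd (j : ℕ) := by
        rw [Nat.odd_iff, this]
        rw [Nat.even_iff] at he
        omega
      rw [he.neg_one_pow, ho.neg_one_pow]
    · have he : Even (j : ℕ) := by
        rw [Nat.even_iff, this]
        rw [Nat.odd_iff] at ho
        omega
      rw [he.neg_one_pow, ho.neg_one_pow, neg_neg]
  · rw [if_neg (by omega), if_neg h, neg_zero]

theorem SS_diag (i : Fin (2 * m)) : SS F (2 * m) i i = 0 := by
  rw [SS_apply, if_neg (by omega)]

theorem sp_left {X : Matrix (Fin (2 * m)) (Fin (2 * m)) F}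
    (hX : X * SS F (2 * m) + SS F (2 * m) * Xᵀ = 0) :
    SS F (2 * m) * X = -(Xᵀ * SS F (2 * m)) := by
  have h1 : X * SS F (2 * m) = -(SS F (2 * m) * Xᵀ) := eq_neg_of_add_eq_zero_left hX
  have h2 : SS F (2 * m) * (X * SS F (2 * m)) * SS F (2 * m) =
      SS F (2 * m) * (-(SS F (2 * m) * Xᵀ)) * SS F (2 * m) := by rw [h1]
  have h3 : SS F (2 * m) * (X * SS F (2 * m)) * SS F (2 * m) =
      SS F (2 * m) * X * (SS F (2 * m) * SS F (2 * m)) := by simp only [Matrix.mul_assoc]
  have h4 : SS F (2 * m) * (-(SS F (2 * m) * Xᵀ)) * SS F (2 * m) =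
      -((SS F (2 * m) * SS F (2 * m)) * (Xᵀ * SS F (2 * m))) := by
    simp only [Matrix.mul_assoc, Matrix.mul_neg, Matrix.neg_mul]
  rw [h3, h4, SS_sq] at h2
  simp only [Matrix.mul_neg, Matrix.neg_mul, Matrix.mul_one, Matrix.one_mul, neg_neg] at h2
  rw [← h2, neg_neg]

theorem bracket {X : Matrix (Fin (2 * m)) (Fin (2 * m)) F}
    (hX : X * SS F (2 * m) + SS F (2 * m) * Xᵀ = 0) (v w : Fin (2 * m) → F) :
    X * T v w - T v w * X = T (X *ᵥ v) w + T v (X *ᵥ w) := by
  have e1 : ∀ x y : Fin (2 * m) → F, vecMulVec (X *ᵥ x) y = X * vecMulVec x y := fun x y =>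
    (Matrix.mul_vecMulVec X x y).symm
  have e2 : ∀ x y : Fin (2 * m) → F, vecMulVec x (X *ᵥ y) = vecMulVec x y * Xᵀ := fun x y => by
    rw [Matrix.vecMulVec_mul, Matrix.vecMul_transpose]
  unfold T
  rw [e1, e2, e1, e2]
  have h1 := sp_left hX
  simp only [Matrix.mul_add, Matrix.add_mul, Matrix.mul_assoc]
  rw [h1]
  simp only [Matrix.mul_neg]
  abel

theorem T_mulVec (v w u : Fin n → F) :
    T v w *ᵥ u = (w ⬝ᵥ (SS F n *ᵥ u)) • v + (v ⬝ᵥ (SS F n *ᵥ u)) • w := by
  unfold T
  rw [← Matrix.mulVec_mulVec, Matrix.add_mulVec]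
  congr 1
  · ext i
    simp only [Matrix.mulVec, vecMulVec_apply, dotProduct, Pi.smul_apply, smul_eq_mul]
    rw [Finset.sum_mul]
    exact Finset.sum_congr rfl fun j _ => by ring
  · ext i
    simp only [Matrix.mulVec, vecMulVec_apply, dotProduct, Pi.smul_apply, smul_eq_mul]
    rw [Finset.sum_mul]
    exact Finset.sum_congr rfl fun j _ => by ring

/-- basis vectors -/
def e (i : Fin n) : Fin n → F := Pi.single i 1

/-- the basis elements -/
def TT (a b : Fin n) : Matrix (Fin n) (Fin n) F := T (e a) (e b)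

theorem TT_comm (a b : Fin n) : (TT a b : Matrix (Fin n) (Fin n) F) = TT b a := T_comm _ _

theorem TT_e (a b c : Fin n) :
    (TT a b : Matrix (Fin n) (Fin n) F) *ᵥ e c = SS F n b c • e a + SS F n a c • e b := by
  unfold TT
  rw [T_mulVec]
  unfold e
  rw [Matrix.mulVec_single_one, single_one_dotProduct, single_one_dotProduct]
  rfl

theorem TT_apply (a b x y : Fin n) : (TT a b : Matrix (Fin n) (Fin n) F) x y =
    (if x = a then SS F n b y else 0) + if x = b then SS F n a y else 0 := by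
  have h := congrFun (TT_e (F := F) a b y) x
  unfold e at h
  rw [Matrix.mulVec_single_one] at h
  simp only [Matrix.col_apply, Pi.add_apply, Pi.smul_apply, smul_eq_mul, Pi.single_apply] at h
  rw [h]
  congr 1
  · split_ifs <;> simp
  · split_ifs <;> simp

variable {L : Submodule F (Matrix (Fin (2 * m)) (Fin (2 * m)) F)} {σ : F →+* F}

theorem bra (hL : LH m σ L) {a b c d : Fin (2 * m)} (h1 : TT a b ∈ L) (h2 : TT c d ∈ L) :
    SS F (2 * m) b c • TT a d + SS F (2 * m) a c • TT b d +
      (SS F (2 * m) b d • TT c a + SS F (2 * m) a d • TT c b) ∈ L := by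
  have h3 := hL.br _ h1 _ h2
  have h4 : TT a b * TT c d - TT c d * TT a b = T ((TT a b) *ᵥ e c) (e d) +
      T (e c) ((TT a b : Matrix (Fin (2 * m)) (Fin (2 * m)) F) *ᵥ e d) :=
    bracket (hL.sp _ h1) _ _
  rw [h4, TT_e, TT_e, T_add_left, T_smul_left, T_smul_left, T_add_right, T_smul_right,
    T_smul_right] at h3
  exact h3

theorem smul_mem' {c : F} (hc : c ≠ 0) {X : Matrix (Fin (2 * m)) (Fin (2 * m)) F}
    (h : c • X ∈ L) : X ∈ L := by
  have := L.smul_mem c⁻¹ h
  rwa [smul_smul, inv_mul_cancel₀ hc, one_smul] at this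

variable [CharZero F]

theorem hom (hL : LH m σ L) {X : Matrix (Fin (2 * m)) (Fin (2 * m)) F} (hX : X ∈ L)
    {a b : Fin (2 * m)} (hab : X a b ≠ 0) :
    ∃ Y ∈ L, Y a b ≠ 0 ∧ ∀ i, i ≠ a → Y i b = 0 := by
  have h1 : ∀ s : Finset ℤ, (Matrix.of fun (i j : Fin (2 * m)) => (∏ d ∈ s, (((j : ℕ) : F) - ((i : ℕ) : F) - (d : F))) *
      X i j) ∈ L := by
    intro s
    induction s using Finset.induction_on with
    | empty =>
      have : (Matrix.of fun (i j : Fin (2 * m)) => (∏ d ∈ (∅ : Finset ℤ),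
        (((j : ℕ) : F) - ((i : ℕ) : F) - (d : F))) * X i j) = X := by
        ext i j
        simp
      rw [this]
      exact hX
    | insert d s hd ih =>
      have h2 := hL.br _ hL.gr _ ih
      have h3 := L.sub_mem h2 (L.smul_mem (d : F) ih)
      convert h3 using 1
      ext i j
      rw [Matrix.of_apply, Finset.prod_insert hd, Matrix.sub_apply, Matrix.sub_apply,
        Matrix.smul_apply]
      unfold gr
      rw [Matrix.diagonal_mul, Matrix.mul_diagonal, Matrix.of_apply, smul_eq_mul]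
      ring
  let s : Finset ℤ := (Finset.Icc (-(2 * m : ℤ)) (2 * m)).erase ((b : ℤ) - (a : ℤ))
  refine ⟨_, h1 s, ?_, ?_⟩
  · rw [Matrix.of_apply]
    refine mul_ne_zero (Finset.prod_ne_zero_iff.2 ?_) hab
    intro d hd
    rw [Finset.mem_erase] at hd
    intro h0
    apply hd.1
    have h5 : (((b : ℤ) - (a : ℤ) - d : ℤ) : F) = 0 := by
      push_cast
      exact h0
    have := Int.cast_eq_zero.1 h5
    omega
  · intro i hi
    rw [Matrix.of_apply]
    have : ∏ d ∈ s, (((b : ℕ) : F) - ((i : ℕ) : F) - (d : F)) = 0 := by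
      apply Finset.prod_eq_zero (i := (b : ℤ) - (i : ℤ))
      · rw [Finset.mem_erase, Finset.mem_Icc]
        have h1 := b.2
        have h2 := i.2
        refine ⟨?_, by omega, by omega⟩
        intro h
        apply hi
        ext
        omega
      · push_cast
        ring
    rw [this, zero_mul]

theorem homE (hL : LH m σ L) {X : Matrix (Fin (2 * m)) (Fin (2 * m)) F} (hX : X ∈ L)
    {a b : Fin (2 * m)} (hab : X a b ≠ 0) :
    ∃ Y ∈ L, ∃ y : F, y ≠ 0 ∧ Y *ᵥ e b = y • e a := by
  obtain ⟨Y, hY, h1, h2⟩ := hom hL hX hab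
  refine ⟨Y, hY, Y a b, h1, ?_⟩
  unfold e
  rw [Matrix.mulVec_single_one]
  ext i
  rw [Matrix.col_apply, Pi.smul_apply, Pi.single_apply, smul_eq_mul]
  by_cases h : i = a
  · rw [if_pos h, h, mul_one]
  · rw [if_neg h, h2 i h, mul_zero]

theorem stepa (hL : LH m σ L) {X : Matrix (Fin (2 * m)) (Fin (2 * m)) F} (hX : X ∈ L)
    {a b : Fin (2 * m)} (hab : X a b ≠ 0) (hb : TT b b ∈ L) : TT a b ∈ L := by
  obtain ⟨Y, hY, y, hy, hYe⟩ := homE hL hX hab
  have h1 := hL.br _ hY _ hb
  have h2 : Y * TT b b - TT b b * Y = T (Y *ᵥ e b) (e b) + T (e b) (Y *ᵥ e b) :=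
    bracket (hL.sp _ hY) _ _
  rw [h2, hYe, T_smul_left, T_smul_right, T_comm (e b), ← smul_add, ← two_smul F] at h1
  exact smul_mem' two_ne_zero (smul_mem' hy h1)

theorem stepb (hL : LH m σ L) {a b : Fin (2 * m)} (hab : a ≠ b) (h1 : TT a b ∈ L)
    (h2 : TT (Fin.rev b) (Fin.rev b) ∈ L) : TT a (Fin.rev b) ∈ L := by
  have h3 := bra hL h1 h2
  have h4 : SS F (2 * m) a (Fin.rev b) = 0 := SS_of_ne fun h => hab (Fin.rev_injective h).symm
  rw [h4, TT_comm (Fin.rev b) a, zero_smul, zero_smul, add_zero] at h3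
  rw [← smul_add, ← two_smul F] at h3
  exact smul_mem' two_ne_zero (smul_mem' (SS_rev_ne b) h3)

theorem mem_rev (hL : LH m σ L) {i : Fin (2 * m)} (h : TT i i ∈ L) :
    TT (Fin.rev i) (Fin.rev i) ∈ L := by
  have h1 := hL.adj _ h
  have h2 : ((TT i i : Matrix (Fin (2 * m)) (Fin (2 * m)) F).map σ)ᵀ =
      -TT (Fin.rev i) (Fin.rev i) := by
    ext x y
    rw [Matrix.transpose_apply, Matrix.map_apply, Matrix.neg_apply, TT_apply, TT_apply]
    by_cases hy : y = i
    · subst hy
      by_cases hx : x = Fin.rev y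
      · subst hx
        simp only [if_true]
        have h3 : SS F (2 * m) (Fin.rev y) y = -SS F (2 * m) y (Fin.rev y) := by
          have := congrFun (congrFun (SS_tr (F := F) (m := m)) y) (Fin.rev y)
          rw [Matrix.transpose_apply, Matrix.neg_apply] at this
          exact this
        rw [h3, SS_rev, map_add, map_pow, map_neg, map_one]
        ring
      · simp only [if_true, if_neg hx, SS_of_ne hx]
        simp
    · by_cases hx : x = Fin.rev i
      · have h4 : SS F (2 * m) (Fin.rev i) y = 0 := SS_of_ne fun h => hy (by rw [h, Fin.rev_rev])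
        simp only [if_neg hy, hx, if_true, h4]
        simp
      · simp only [if_neg hy, if_neg hx]
        simp
  rw [h2] at h1
  exact (L.neg_mem_iff).1 h1

theorem stepA (hm : 1 ≤ m) (hL : LH m σ L) (hI : Irr L) (hE : EE F (2 * m) ∈ L)
    (i : Fin (2 * m)) : TT i i ∈ L := by
  by_contra hi
  have h0 : TT (⟨0, by omega⟩ : Fin (2 * m)) ⟨0, by omega⟩ ∈ L := by
    have h1 : TT (⟨0, by omega⟩ : Fin (2 * m)) ⟨0, by omega⟩ = (2 : F) • EE F (2 * m) := by
      ext x y
      rw [TT_apply, Matrix.smul_apply]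
      unfold EE
      rw [Matrix.of_apply, SS_apply]
      by_cases hx : x = (⟨0, by omega⟩ : Fin (2 * m))
      · subst hx
        by_cases hy : (y : ℕ) + 1 = 2 * m
        · simp [hy]
          ring
        · simp [hy]
      · have hx' : (x : ℕ) ≠ 0 := fun h => hx (Fin.ext h)
        simp [hx, hx']
    rw [h1]
    exact L.smul_mem _ hE
  obtain ⟨X, hX, a, ha, b, hb, hab⟩ := hI {i | TT i i ∈ L} ⟨_, h0⟩ (fun h => by
    have : i ∈ {i : Fin (2 * m) | TT i i ∈ L} := by rw [h]; trivial
    exact hi this)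
  have hne : a ≠ b := fun h => ha (by rw [h]; exact hb)
  have k1 : TT a b ∈ L := stepa hL hX hab hb
  have k2 : TT a (Fin.rev b) ∈ L := stepb hL hne k1 (mem_rev hL hb)
  by_cases hr : a = Fin.rev b
  · exact ha (by rw [hr]; exact mem_rev hL hb)
  · apply ha
    rw [TT_comm] at k1 k2
    have h3 := bra hL k1 k2
    have h4 : SS F (2 * m) a (Fin.rev b) = 0 := SS_of_ne fun h => hne (Fin.rev_injective h).symm
    have h5 : SS F (2 * m) b a = 0 := SS_of_ne hr
    rw [h4, h5, SS_diag, zero_smul, zero_smul, zero_smul, zero_add, add_zero, add_zero] at h3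
    exact smul_mem' (SS_rev_ne b) h3

theorem stepB (hL : LH m σ L) (hA : ∀ i : Fin (2 * m), TT i i ∈ L) (b : Fin (2 * m)) :
    TT b (Fin.rev b) ∈ L := by
  have h3 := bra hL (hA b) (hA (Fin.rev b))
  rw [TT_comm (Fin.rev b) b, ← smul_add, ← smul_add, ← two_smul F, ← two_smul F] at h3
  exact smul_mem' two_ne_zero (smul_mem' two_ne_zero (smul_mem' (SS_rev_ne b) h3))

theorem stepD (hL : LH m σ L) (hI : Irr L) (hA : ∀ i : Fin (2 * m), TT i i ∈ L)
    (i j : Fin (2 * m)) : TT i j ∈ L := by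
  by_contra hj
  obtain ⟨X, hX, a, ha, b, hb, hab⟩ := hI {j | TT i j ∈ L} ⟨i, hA i⟩ (fun h => by
    have : j ∈ {j : Fin (2 * m) | TT i j ∈ L} := by rw [h]; trivial
    exact hj this)
  have hb' : TT i b ∈ L := hb
  have hne : a ≠ b := fun h => ha (by rw [h]; exact hb)
  have k1 : TT a b ∈ L := stepa hL hX hab (hA b)
  have k2 : TT (Fin.rev b) a ∈ L := by
    rw [TT_comm]
    exact stepb hL hne k1 (hA _)
  have k3 : TT (Fin.rev b) b ∈ L := by
    rw [TT_comm]
    exact stepB hL hA b
  apply ha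
  change TT i a ∈ L
  have h3 := bra hL hb' k2
  have h4 := L.sub_mem h3 (L.smul_mem (SS F (2 * m) i a) k3)
  have h5 : SS F (2 * m) b (Fin.rev b) • TT i a + SS F (2 * m) i (Fin.rev b) • TT b a +
      (SS F (2 * m) b a • TT (Fin.rev b) i + SS F (2 * m) i a • TT (Fin.rev b) b) -
      SS F (2 * m) i a • TT (Fin.rev b) b =
      SS F (2 * m) b (Fin.rev b) • (TT i a : Matrix (Fin (2 * m)) (Fin (2 * m)) F) +
        SS F (2 * m) i (Fin.rev b) • TT b a + SS F (2 * m) b a • TT (Fin.rev b) i := by abel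
  rw [h5] at h4
  have hs := SS_rev_ne (F := F) b
  by_cases h1 : i = b
  · subst h1
    by_cases h2 : a = Fin.rev i
    · subst h2
      rw [TT_comm (Fin.rev i) i, ← smul_add, ← smul_add, ← two_smul F,
        show ((2 : F) • TT i (Fin.rev i) + TT i (Fin.rev i) :
          Matrix (Fin (2 * m)) (Fin (2 * m)) F) = (3 : F) • TT i (Fin.rev i) by
          module] at h4
      exact smul_mem' (by norm_num : (3 : F) ≠ 0) (smul_mem' hs h4)
    · rw [SS_of_ne h2, zero_smul, add_zero, ← smul_add, ← two_smul F] at h4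
      exact smul_mem' two_ne_zero (smul_mem' hs h4)
  · have h6 : SS F (2 * m) i (Fin.rev b) = 0 :=
      SS_of_ne fun h => h1 (Fin.rev_injective h).symm
    rw [h6, zero_smul, add_zero] at h4
    by_cases h2 : a = Fin.rev b
    · subst h2
      rw [TT_comm (Fin.rev b) i, ← smul_add, ← two_smul F] at h4
      exact smul_mem' two_ne_zero (smul_mem' hs h4)
    · rw [SS_of_ne h2, zero_smul, add_zero] at h4
      exact smul_mem' hs h4

end even

theorem lie1 : S_LIE1 := by
  intro F _ _ σ m hm L hL hI hE X hX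
  have hA := stepA hm hL hI hE
  have hall := stepD hL hI hA
  have h1 : X * SS F (2 * m) = -(SS F (2 * m) * Xᵀ) := eq_neg_of_add_eq_zero_left hX
  have hsym : ∀ i j, (X * SS F (2 * m)) i j = (X * SS F (2 * m)) j i := by
    intro i j
    have h2 : (X * SS F (2 * m))ᵀ = X * SS F (2 * m) := by
      rw [Matrix.transpose_mul, SS_tr, h1, Matrix.neg_mul]
    rw [← Matrix.transpose_apply (X * SS F (2 * m)) i j, h2]
  have h3 : X = -((X * SS F (2 * m)) * SS F (2 * m)) := by
    rw [Matrix.mul_assoc, SS_sq, Matrix.mul_neg, Matrix.mul_one, neg_neg]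
  have h4 : X = ∑ i, ∑ j, (-(X * SS F (2 * m)) i j / 2) • TT i j := by
    ext x y
    rw [Matrix.sum_apply]
    simp only [Matrix.sum_apply, Matrix.smul_apply, TT_apply, smul_eq_mul, mul_add,
      Finset.sum_add_distrib]
    have e1 : ∑ i : Fin (2 * m), ∑ j : Fin (2 * m), -(X * SS F (2 * m)) i j / 2 *
        (if x = i then SS F (2 * m) j y else 0) =
        ∑ j, -(X * SS F (2 * m)) x j / 2 * SS F (2 * m) j y := by
      rw [Finset.sum_eq_single x]
      · simp
      · intro i _ hi
        refine Finset.sum_eq_zero fun j _ => ?_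
        rw [if_neg (Ne.symm hi), mul_zero]
      · intro h
        exact absurd (Finset.mem_univ _) h
    have e2 : ∑ i : Fin (2 * m), ∑ j : Fin (2 * m), -(X * SS F (2 * m)) i j / 2 *
        (if x = j then SS F (2 * m) i y else 0) =
        ∑ j, -(X * SS F (2 * m)) x j / 2 * SS F (2 * m) j y := by
      refine Finset.sum_congr rfl fun i _ => ?_
      rw [Finset.sum_eq_single x]
      · rw [if_pos rfl, hsym]
      · intro j _ hj
        rw [if_neg (Ne.symm hj), mul_zero]
      · intro h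
        exact absurd (Finset.mem_univ _) h
    rw [e1, e2, ← Finset.sum_add_distrib]
    conv_lhs => rw [h3]
    rw [Matrix.neg_apply, Matrix.mul_apply, ← Finset.sum_neg_distrib]
    refine Finset.sum_congr rfl fun j _ => ?_
    ring
  rw [h4]
  exact L.sum_mem fun i _ => L.sum_mem fun j _ => L.smul_mem _ (hall i j)

end Pool.Agent.Y412.MT
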